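import Pool.Agent.H18.GIT.Global

/-!
# The moduli part of a bundle of flag varieties with a log canonical boundary

Let `Y → B` be a holomorphic bundle of flag varieties (for example of projective spaces) with the
structure group `PGL_q` over any complex manifold `B`, and let `Δ` be a boundary on `Y` such that
`m Δ` is integral, `K_Y + Δ` is trivial on the fibres and all fibres `(Y_p, Δ_p)` are log canonical.
Then `(Y, Δ) → B` is an lc-trivial fibration with the index `r = m`. Its boundary divisor vanishes,
and the moduli divisor is `M = L / m`, where `m (K_{Y/B} + Δ)` is the pullback of the line bundle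
`L`, on `B` and on all `B' → B`. We show that `L ^ N` is globally generated, where `N` depends only
on the type of the flags and on `m`. So `I M` is base point free for `I = m N`.
-/

set_option autoImplicit false

universe u v

namespace Pool.Agent.Results.MP_5c6cc8_ag.FlagBundleModuliPart

open MvPolynomial Q47.FL H18.GIT
open scoped Manifold ContDiff

/-- Let `b` be a type of flags in `ℂ^q`, let `m ≥ 1`, and let `d = m anti` be the weight of the line
bundle `O(- m K)` on the flag variety. There is `N ≥ 1`, which depends only on `b` and `m`, with the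
following property. Let `Y` be a bundle of flag varieties over a complex manifold `B`, and let `F`,
`e` define an effective divisor `m Δ` on `Y`, which has the weight `d` on the fibres and such that all
fibres of `(Y, Δ)` over `B` are log canonical. Then `m (K_{Y/B} + Δ)` is the pullback of the line
bundle `L` on `B` with the transition functions `e i j`, and `L ^ N` is globally generated: for each
point `p ∈ U i` of `B` there is a global section `s` of `L ^ N` which does not vanish at `p`. -/
theorem result {q : ℕ} {b : Fin q → ℕ} (hb : Monotone b) {m : ℕ} (hm : 1 ≤ m) {d : ℕ → ℕ}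
    (hd : ∀ j, (d (b j) : ℤ) = m * anti b j) :
    ∃ N : ℕ, 1 ≤ N ∧ ∀ (n : ℕ) (B : Type u) [TopologicalSpace B] [ChartedSpace (Fin n → ℂ) B]
      [IsManifold 𝓘(ℂ, Fin n → ℂ) ω B] (ι : Type v) (Y : FlagBundle n B q ι)
      (F : ι → B → MvPolynomial (Fin q × Fin q) ℂ) (e : ι → ι → B → ℂ), Y.IsDivisor b d F e →
      (∀ i, ∀ p ∈ Y.U i, IsLogCanonical b m (F i p)) →
      ∀ i, ∀ p ∈ Y.U i, ∃ s : ι → B → ℂ, (∀ j, Holo (n := n) (Y.U j) (s j)) ∧
        (∀ j k, ∀ p ∈ Y.U j ∩ Y.U k, s j p = e j k p ^ N * s k p) ∧ s i p ≠ 0 := by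
  obtain ⟨N, hN, hN2⟩ := relative.{u, v} hb hm (d := d) (by
    intro i j _
    change (d (b j) : ℤ) - m * anti b j ≤ d (b i) - m * anti b i
    rw [hd, hd, sub_self, sub_self])
  refine ⟨N, hN, fun n B _ _ _ ι Y F e hF hlc i p hp => ?_⟩
  obtain ⟨G, hG, hne⟩ := hN2 n B ι Y F e hF i p hp (hlc i p hp) 1 (by
    rw [Matrix.det_one]
    exact one_ne_zero)
  obtain ⟨d', hd', hsemi⟩ := hG.semi
  have h0 : ∀ j, d' (b j) = 0 := by
    intro j
    have h1 := hd' j
    rw [hd, sub_self, mul_zero] at h1
    exact_mod_cast h1
  have hconst : ∀ j, ∀ p ∈ Y.U j, G j p = C (coeff 0 (G j p)) := by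
    intro j p hp
    have h1 := hom_of_semi (hsemi j p hp)
    have h2 : ∑ j, d' (b j) = 0 := Finset.sum_eq_zero fun j _ => h0 j
    rw [h2] at h1
    exact (totalDegree_eq_zero_iff_eq_C).1 (Nat.le_zero.1 h1.totalDegree_le)
  refine ⟨fun j p => coeff 0 (G j p), fun j => hG.holo j 0, fun j k p hp => ?_, ?_⟩
  · have h1 := hG.eq j k p hp 1
    rw [hconst j p hp.1, hconst k p hp.2] at h1
    simpa [ev] using h1
  · rw [hconst i p hp] at hne
    simpa [ev] using hne

end Pool.Agent.Results.MP_5c6cc8_ag.FlagBundleModuliPart
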