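import Pool.Agent.H18.TB.Simp

/-!
# Effective b-semiampleness for log canonical boundaries on toric bundles

Let `Y → B` be a toric bundle of relative dimension `r` over any complex manifold `B`: a holomorphic
fibre bundle whose fibre is a complete `ℚ`-factorial toric variety (for instance smooth, or a weighted
projective space) and whose structure group is its torus. Let `Δ` be an effective boundary on `Y`,
which need not be invariant under the torus, such that `m Δ` is integral, `m (K_Y + Δ)` is trivial on the
fibres and all fibres `(Y_p, Δ_p)` are log canonical. Then `(Y, Δ) → B` is an lc-trivial fibration with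
the index `m`. Its boundary divisor vanishes, and the moduli divisor is `M = L / m`, where
`m (K_{Y/B} + Δ)` is the pullback of the line bundle `L`, on `B` and on all `B' → B`. We show that
`L ^ N` is globally generated, where `N` depends only on the relative dimension `r` and on `m`, but not
on the toric variety. (There are infinitely many complete toric varieties in every dimension `r ≥ 2`,
and they do not form a bounded family.) So `I M` is base point free for `I = m N`, which depends only on
the relative dimension and the index. (If the fan is complete but not simplicial, then the theorem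
applies to a simplicial refinement with the same rays, which gives a small crepant modification of `Y`.)

The points of the toric variety of a complete simplicial fan are given by the Cox coordinates `x_i`,
up to the group `G` of all `s ∈ (ℂ^*)^κ` with `∏ s_i ^ (w_i)_k = 1` for all `k`. As the generators
`w_i` are primitive, the quotient by `G` is étale in codimension one, so that log canonical pairs can be
recognized in the Cox coordinates.

Proof. The coefficients of the equation of `m Δ` at a log canonical fibre have characters
`q_α ∈ ℤ^r` of the torus with `0` in their convex hull. Let `0` be the combination of affinely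
independent `q_α` with coefficients `λ_α > 0`. By simultaneous approximation and the compactness of the
simplex there are `s ≤ C(r, m)` and integers `n_α` divisible by `m` with `∑ n_α = s` and
`n_α < (s + 1) λ_α`. Then `∑ ((s + 1) λ_α - n_α) q_α` is a lattice point `m u` in the interior of the
simplex, so `u` is greater than `-1`, hence nonnegative, on all rays of the fan, and `u = 0`. So
`n_α = s λ_α`, and the product of the coefficients to the powers `n_α` is a section of `L ^ s`. (The
argument for the simplex is that of Lagarias and Ziegler for lattice polytopes with one interior point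
in a sublattice.)
-/

set_option autoImplicit false

universe u v x

namespace Pool.Agent.Results.MP_5c6cc8_ag.ToricBundleModuliPart

open MvPolynomial Q47.TB H18.TB H18.GIT
open scoped Manifold ContDiff

/-- Let `r ≥ 0` and `m ≥ 1`. There is `N ≥ 1`, which depends only on `r` and `m`, with the following
property. Let the vectors `w a`, `a ∈ κ`, be the primitive generators of the rays and `S` the cones of
a complete simplicial fan in `ℤ^r`, let `Y` be a toric bundle over a complex manifold `B` with the toric
variety of the fan as fibre, and let `F`, `e` define an effective divisor `m Δ` on `Y`, which has the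
class `O(m, ..., m) = O(- m K)` on the fibres. Then `m (K_{Y/B} + Δ)` is the pullback of the line
bundle `L` on `B` with the transition functions `e i j / (∏ a, t i j a) ^ m`, and for each point
`p ∈ U i` of `B` such that the fibre of `(Y, Δ)` over `p` is log canonical there is a global section
`s` of `L ^ N` which does not vanish at `p`. In particular `L ^ N` is globally generated if all fibres
are log canonical. -/
theorem result (r : ℕ) {m : ℕ} (hm : 1 ≤ m) :
    ∃ N : ℕ, 1 ≤ N ∧ ∀ (κ : Type x) [Fintype κ] (w : κ → Fin r → ℤ) (S : Set (Set κ)),
      IsSimplicialFan w S → ∀ (n : ℕ) (B : Type u) [TopologicalSpace B]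
      [ChartedSpace (Fin n → ℂ) B] [IsManifold 𝓘(ℂ, Fin n → ℂ) ω B] (ι : Type v)
      (Y : ToricBundle n B w ι) (F : ι → B → MvPolynomial κ ℂ) (e : ι → ι → B → ℂ),
      Y.IsDivisor (fun _ => (m : ℤ)) F e →
      ∀ i, ∀ p ∈ Y.U i, IsLogCanonical S m (F i p) →
        ∃ s : ι → B → ℂ, (∀ j, Holo (n := n) (Y.U j) (s j)) ∧
          (∀ j k, ∀ p ∈ Y.U j ∩ Y.U k,
            s j p * (∏ a, Y.t j k p a) ^ (m * N) = e j k p ^ N * s k p) ∧ s i p ≠ 0 := by
  classical
  obtain ⟨N, hN, h⟩ := unif_simplicial.{x} r m hm
  refine ⟨N, hN, fun κ _ w S hS n B _ _ _ ι Y F e hF i p hp hlc => ?_⟩
  obtain ⟨b, h1, h2⟩ := h κ w S hS (F i p).support (hF.deg i p hp)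
    (fun a ha => weights_of_lc hm hlc a ha)
  have hsec := section_of_comb Y (m := m) hF (F i p).support b (β := fun _ => 0) ⟨0, by simp⟩ h1
    (fun a => by rw [add_zero]; exact h2 a)
  refine ⟨fun j p' => ∏ α ∈ (F i p).support, coeff α (F j p') ^ b α,
    fun j => contMDiffOn_finsetProd fun α _ => (hF.holo j α).pow _, fun j k p' hp' => ?_, ?_⟩
  · have h3 := hsec.eq j k p' hp' 1
    rw [eval_monomial, eval_monomial, Finsupp.prod_fintype _ _ fun i => pow_zero _,
      Finsupp.prod_fintype _ _ fun i => pow_zero _] at h3
    simp only [Finsupp.equivFunOnFinite_symm_apply_apply, mul_zero, pow_zero, Finset.prod_const_one,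
      mul_one] at h3
    rw [mul_comm m N]
    exact h3
  · exact Finset.prod_ne_zero_iff.2 fun α hα => pow_ne_zero _ (mem_support_iff.1 hα)

end Pool.Agent.Results.MP_5c6cc8_ag.ToricBundleModuliPart
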